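import Pool.Agent.H768.C4.Iface

/-!
# C4-FLOW: convex bodies with infinitely many affine symmetries (by helper44)
-/

set_option autoImplicit false

open Set Topology Module Filter MeasureTheory

namespace Pool.Agent.H44.C4

/-! ### powers and the exponential in a Banach algebra -/

section alg

variable {𝔸 : Type} [NormedRing 𝔸]

theorem pow_sub_bound {a b : 𝔸} {C1 C2 : ℝ} (hC1 : 0 ≤ C1) (hC2 : 0 ≤ C2)
    (h1 : ∀ k : ℕ, ‖a^k‖ ≤ C1) (m : ℕ) :
    ∀ j : ℕ, (∀ i ≤ m + j, ‖b^i‖ ≤ C2) → ‖(a^m - b^m) * b^j‖ ≤ m * (C1 * ‖a - b‖ * C2) := by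
  induction m with
  | zero =>
    intro j _
    simp
  | succ m ih =>
    intro j hj
    have h2 := ih (j+1) (fun i hi => hj i (by omega))
    have e : (a^(m+1) - b^(m+1)) * b^j = a^m * (a - b) * b^j + (a^m - b^m) * b^(j+1) := by
      rw [pow_succ, pow_succ, pow_succ']
      noncomm_ring
    rw [e]
    refine (norm_add_le _ _).trans ?_
    have h3 : ‖a^m * (a - b) * b^j‖ ≤ C1 * ‖a - b‖ * C2 := by
      refine (norm_mul_le _ _).trans ?_
      refine mul_le_mul ?_ (hj j (by omega)) (norm_nonneg _) (by positivity)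
      refine (norm_mul_le _ _).trans ?_
      exact mul_le_mul_of_nonneg_right (h1 m) (norm_nonneg _)
    push_cast
    linarith

variable [NormedAlgebra ℝ 𝔸] [CompleteSpace 𝔸]

theorem exp_lim [ProperSpace 𝔸] {B : ℕ → 𝔸} {C1 : ℝ} (hB : ∀ n k, ‖(B n)^k‖ ≤ C1) {t : ℕ → ℝ}
    (ht : ∀ n, 0 < t n) (ht0 : Tendsto t atTop (𝓝 0)) {X : 𝔸}
    (hX : Tendsto (fun n => (t n)⁻¹ • (B n - 1)) atTop (𝓝 X)) {s : ℝ} (hs : 0 ≤ s) :
    Tendsto (fun n => (B n)^⌊s / t n⌋₊) atTop (𝓝 (NormedSpace.exp (s • X))) := by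
  letI : NormedAlgebra ℚ 𝔸 := NormedAlgebra.restrictScalars ℚ ℝ 𝔸
  have hC1 : 0 ≤ C1 := (norm_nonneg _).trans (hB 0 0)
  set m : ℕ → ℕ := fun n => ⌊s / t n⌋₊ with hm
  set Y : ℕ → 𝔸 := fun n => B n - 1 with hY
  have hYt : ∀ n, Y n = t n • ((t n)⁻¹ • (B n - 1)) := fun n => by
    rw [smul_smul, mul_inv_cancel₀ (ht n).ne', one_smul]
  have hY0 : Tendsto Y atTop (𝓝 0) := by
    have := ht0.smul hX
    rw [zero_smul] at this
    exact this.congr fun n => (hYt n).symm
  -- `m n * t n → s`
  have hmt : Tendsto (fun n => (m n : ℝ) * t n) atTop (𝓝 s) := by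
    have h1 : Tendsto (fun n => s - t n) atTop (𝓝 s) := by
      simpa using tendsto_const_nhds.sub ht0
    refine tendsto_of_tendsto_of_tendsto_of_le_of_le h1 tendsto_const_nhds (fun n => ?_)
      (fun n => ?_)
    · have h2 := Nat.lt_floor_add_one (s / t n)
      rw [div_lt_iff₀ (ht n)] at h2
      simp only [hm]
      linarith
    · have h2 := Nat.floor_le (div_nonneg hs (ht n).le)
      rw [le_div_iff₀ (ht n)] at h2
      exact h2
  have hmY : Tendsto (fun n => (m n : ℝ) • Y n) atTop (𝓝 (s • X)) := by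
    refine (hmt.smul hX).congr fun n => ?_
    rw [hYt n, smul_smul (m n : ℝ)]
  have hmY' : Tendsto (fun n => m n • Y n) atTop (𝓝 (s • X)) :=
    hmY.congr fun n => by rw [Nat.cast_smul_eq_nsmul]
  have hexp : Tendsto (fun n => NormedSpace.exp (Y n)^(m n)) atTop
      (𝓝 (NormedSpace.exp (s • X))) := by
    refine hmY'.exp.congr fun n => ?_
    rw [NormedSpace.exp_nsmul]
  -- the difference
  obtain ⟨R, hR⟩ : ∃ R : ℝ, ∀ n, ‖(m n : ℝ) • Y n‖ ≤ R := by
    obtain ⟨R, hR⟩ := (Metric.isBounded_range_of_tendsto _ hmY).exists_norm_le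
    exact ⟨R, fun n => hR _ (mem_range_self n)⟩
  obtain ⟨C2, hC2⟩ : ∃ C2 : ℝ, ∀ y ∈ Metric.closedBall (0:𝔸) R, ‖NormedSpace.exp y‖ ≤ C2 :=
    (isCompact_closedBall (0:𝔸) R).exists_bound_of_continuousOn
      NormedSpace.exp_continuous.continuousOn
  have hR0 : 0 ≤ R := (norm_nonneg _).trans (hR 0)
  have hC20 : 0 ≤ C2 := (norm_nonneg _).trans (hC2 0 (by simpa using hR0))
  have hb : ∀ n, ∀ i ≤ m n + 0, ‖NormedSpace.exp (Y n)^i‖ ≤ C2 := by
    intro n i hi
    rw [← NormedSpace.exp_nsmul]
    apply hC2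
    rw [mem_closedBall_zero_iff, ← Nat.cast_smul_eq_nsmul ℝ, norm_smul]
    refine le_trans ?_ (hR n)
    rw [norm_smul]
    refine mul_le_mul_of_nonneg_right ?_ (norm_nonneg _)
    rw [Real.norm_natCast, Real.norm_natCast]
    exact_mod_cast (by omega : i ≤ m n)
  have hd : ∀ n, ‖(B n)^(m n) - NormedSpace.exp (Y n)^(m n)‖ ≤
      m n * (C1 * ‖B n - NormedSpace.exp (Y n)‖ * C2) := by
    intro n
    have := pow_sub_bound hC1 hC20 (hB n) (m n) 0 (hb n)
    rwa [pow_zero, mul_one] at this
  have hlo : Tendsto (fun n => (m n : ℝ) * ‖B n - NormedSpace.exp (Y n)‖) atTop (𝓝 0) := by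
    have hder : HasFDerivAt (NormedSpace.exp : 𝔸 → 𝔸) (1 : 𝔸 →L[ℝ] 𝔸) 0 :=
      (hasStrictFDerivAt_exp_zero (𝕂 := ℝ)).hasFDerivAt
    rw [hasFDerivAt_iff_isLittleO_nhds_zero] at hder
    have h1 := hder.comp_tendsto hY0
    have h2 : (fun n => (m n : ℝ) • (B n - NormedSpace.exp (Y n))) =o[atTop]
        (fun n => (m n : ℝ) • Y n) := by
      refine (Asymptotics.isBigO_refl (fun n => (m n : ℝ)) atTop).smul_isLittleO ?_
      refine (h1.neg_left).congr (fun n => ?_) (fun n => rfl)
      simp only [Function.comp_apply, zero_add, NormedSpace.exp_zero,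
        one_apply_eq_self, hY]
      abel
    have h3 : (fun n => (m n : ℝ) • Y n) =O[atTop] (fun _ => (1:ℝ)) :=
      hmY.isBigO_one ℝ
    have h4 := h2.trans_isBigO h3
    rw [Asymptotics.isLittleO_one_iff] at h4
    refine (tendsto_zero_iff_norm_tendsto_zero.1 h4).congr fun n => ?_
    rw [norm_smul, Real.norm_natCast]
  have hdiff : Tendsto (fun n => (B n)^(m n) - NormedSpace.exp (Y n)^(m n)) atTop (𝓝 0) := by
    rw [tendsto_zero_iff_norm_tendsto_zero]
    have h5 : Tendsto (fun n => (m n : ℝ) * ‖B n - NormedSpace.exp (Y n)‖ * (C1 * C2)) atTop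
        (𝓝 0) := by
      simpa using hlo.mul_const (C1 * C2)
    refine squeeze_zero (fun n => norm_nonneg _) (fun n => (hd n).trans (le_of_eq ?_)) h5
    ring
  have := hdiff.add hexp
  rw [zero_add] at this
  exact this.congr fun n => by abel

end alg

/-! ### the group of linear symmetries -/

section group

variable {V : Type} [NormedAddCommGroup V] [NormedSpace ℝ V] [FiniteDimensional ℝ V]

theorem bound_of_maps {K : Set V} (hK : IsCompact K) (h0 : (0:V) ∈ interior K) :
    ∃ C : ℝ, 0 < C ∧ ∀ A : V →L[ℝ] V, A '' K = K → ‖A‖ ≤ C := by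
  obtain ⟨ρ, hρ, hb⟩ := Metric.nhds_basis_closedBall.mem_iff.1 (mem_interior_iff_mem_nhds.1 h0)
  obtain ⟨R, hR0, hR⟩ := hK.isBounded.exists_pos_norm_le
  refine ⟨R / ρ, by positivity, fun A hA => ?_⟩
  refine ContinuousLinearMap.opNorm_le_bound _ (by positivity) fun x => ?_
  rcases eq_or_ne x 0 with rfl | hx
  · simp
  · have hx' : 0 < ‖x‖ := norm_pos_iff.2 hx
    have h1 : (ρ / ‖x‖) • x ∈ K := by
      apply hb
      rw [mem_closedBall_zero_iff, norm_smul, Real.norm_eq_abs, abs_of_pos (by positivity),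
        div_mul_cancel₀ _ hx'.ne']
    have h2 : A ((ρ / ‖x‖) • x) ∈ K := by
      rw [← hA]
      exact mem_image_of_mem _ h1
    have h3 := hR _ h2
    rw [map_smul, norm_smul, Real.norm_eq_abs, abs_of_pos (by positivity)] at h3
    rw [div_mul_eq_mul_div, div_le_iff₀ hx'] at h3
    rw [div_mul_eq_mul_div, le_div_iff₀ hρ]
    linarith

theorem one_mem (K : Set V) : (1 : V →L[ℝ] V) '' K = K := by
  ext x
  simp

theorem mul_mem {K : Set V} {A B : V →L[ℝ] V} (hA : A '' K = K) (hB : B '' K = K) :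
    (A * B) '' K = K := by
  have : ((A * B : V →L[ℝ] V) : V → V) = A ∘ B := rfl
  rw [this, image_comp, hB, hA]

theorem pow_mem {K : Set V} {A : V →L[ℝ] V} (hA : A '' K = K) (k : ℕ) : (A^k) '' K = K := by
  induction k with
  | zero => rw [pow_zero]; exact one_mem K
  | succ k ih => rw [pow_succ]; exact mul_mem ih hA

theorem inv_mem {K : Set V} (h0 : (0:V) ∈ interior K) {A : V →L[ℝ] V} (hA : A '' K = K) :
    ∃ A' : V →L[ℝ] V, A' * A = 1 ∧ A * A' = 1 ∧ A' '' K = K := by
  have hs : Function.Surjective (A : V →ₗ[ℝ] V) := by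
    rw [← LinearMap.range_eq_top]
    refine Submodule.eq_top_of_nonempty_interior' _ ⟨0, ?_⟩
    refine interior_mono ?_ h0
    intro x hx
    rw [← hA] at hx
    obtain ⟨y, -, rfl⟩ := hx
    exact LinearMap.mem_range_self (A : V →ₗ[ℝ] V) y
  have hi : Function.Injective (A : V →ₗ[ℝ] V) := LinearMap.injective_iff_surjective.2 hs
  let e := LinearEquiv.ofBijective (A : V →ₗ[ℝ] V) ⟨hi, hs⟩
  let A' : V →L[ℝ] V := LinearMap.toContinuousLinearMap (e.symm : V →ₗ[ℝ] V)
  have h1 : ∀ x, A' (A x) = x := fun x => e.symm_apply_apply x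
  have h2 : ∀ x, A (A' x) = x := fun x => e.apply_symm_apply x
  refine ⟨A', ContinuousLinearMap.ext h1, ContinuousLinearMap.ext h2, ?_⟩
  conv_lhs => rw [← hA]
  rw [← image_comp]
  have : (A' ∘ A : V → V) = id := funext h1
  rw [this, image_id]

theorem closed_mem {K : Set V} (hK : IsCompact K) {A : ℕ → V →L[ℝ] V} {A0 : V →L[ℝ] V}
    (hA : ∀ n, A n '' K = K) (h : Tendsto A atTop (𝓝 A0)) : A0 '' K = K := by
  apply Subset.antisymm
  · rintro _ ⟨x, hx, rfl⟩
    have h1 : Tendsto (fun n => A n x) atTop (𝓝 (A0 x)) :=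
      ((ContinuousLinearMap.apply ℝ V x).continuous.tendsto A0).comp h
    refine hK.isClosed.mem_of_tendsto h1 (Eventually.of_forall fun n => ?_)
    rw [← hA n]
    exact mem_image_of_mem _ hx
  · intro y hy
    have h1 : ∀ n, ∃ x ∈ K, A n x = y := fun n => by
      have := hy
      rw [← hA n] at this
      exact this
    choose x hxK hx using h1
    obtain ⟨x0, hx0, φ, hφ, hlim⟩ := hK.tendsto_subseq hxK
    refine ⟨x0, hx0, ?_⟩
    have h2 : Tendsto (fun n => (A (φ n)) (x (φ n))) atTop (𝓝 (A0 x0)) := by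
      have h3 : Tendsto (fun n => A (φ n)) atTop (𝓝 A0) := h.comp hφ.tendsto_atTop
      exact ((isBoundedBilinearMap_apply (𝕜 := ℝ) (E := V) (F := V)).continuous.tendsto
        (A0, x0)).comp (h3.prodMk_nhds hlim)
    have h4 : Tendsto (fun n => (A (φ n)) (x (φ n))) atTop (𝓝 y) :=
      tendsto_const_nhds.congr fun n => (hx (φ n)).symm
    exact tendsto_nhds_unique h2 h4

/-- two different elements of an infinite bounded set are close -/
theorem exists_close {E : Type} [NormedAddCommGroup E] [ProperSpace E] {G : Set E}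
    (hG : G.Infinite) {C : ℝ} (hC : ∀ A ∈ G, ‖A‖ ≤ C) {ε : ℝ} (hε : 0 < ε) :
    ∃ A ∈ G, ∃ A' ∈ G, A ≠ A' ∧ ‖A - A'‖ < ε := by
  obtain ⟨A0, -, hacc⟩ := hG.exists_accPt_of_subset_isCompact (isCompact_closedBall (0:E) C)
    (fun A hA => by rw [mem_closedBall_zero_iff]; exact hC A hA)
  rw [accPt_iff_nhds] at hacc
  obtain ⟨A, ⟨hA1, hA2⟩, hA3⟩ := hacc (Metric.ball A0 (ε/2)) (Metric.ball_mem_nhds _ (by positivity))
  have hd : 0 < dist A A0 := dist_pos.2 hA3
  obtain ⟨A', ⟨hA1', hA2'⟩, hA3'⟩ := hacc (Metric.ball A0 (min (ε/2) (dist A A0)))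
    (Metric.ball_mem_nhds _ (by positivity))
  rw [Metric.mem_ball, lt_min_iff] at hA1'
  rw [Metric.mem_ball] at hA1
  refine ⟨A, hA2, A', hA2', ?_, ?_⟩
  · rintro rfl
    exact lt_irrefl _ hA1'.2
  · rw [← dist_eq_norm]
    have := dist_triangle_right A A' A0
    linarith [hA1'.1]

theorem flow_of_infinite {K : Set V} (hK : IsCompact K) (h0 : (0:V) ∈ interior K)
    (hG : {A : V →L[ℝ] V | A '' K = K}.Infinite) :
    ∃ X : V →L[ℝ] V, X ≠ 0 ∧ ∀ (t : ℝ), ∀ v ∈ K, NormedSpace.exp (t • X) v ∈ K := by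
  haveI : ProperSpace (V →L[ℝ] V) := FiniteDimensional.proper_real _
  letI : NormedAlgebra ℚ (V →L[ℝ] V) := NormedAlgebra.restrictScalars ℚ ℝ _
  obtain ⟨C, hC0, hC⟩ := bound_of_maps hK h0
  -- elements close to one
  have h1 : ∀ n : ℕ, ∃ B : V →L[ℝ] V, B '' K = K ∧ B ≠ 1 ∧ ‖B - 1‖ < 1 / ((n:ℝ) + 1) := by
    intro n
    obtain ⟨A, hA, A', hA', hne, hlt⟩ := exists_close hG (fun A hA => hC A hA)
      (ε := 1 / ((n:ℝ) + 1) / C) (by positivity)
    obtain ⟨D, hD1, hD2, hD3⟩ := inv_mem h0 hA'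
    refine ⟨D * A, mul_mem hD3 hA, ?_, ?_⟩
    · intro h
      apply hne
      calc A = A' * D * A := by rw [hD2, one_mul]
        _ = A' * (D * A) := mul_assoc _ _ _
        _ = A' := by rw [h, mul_one]
    · have e : D * A - 1 = D * (A - A') := by rw [mul_sub, hD1]
      rw [e]
      refine (norm_mul_le _ _).trans_lt ?_
      rw [lt_div_iff₀ hC0] at hlt
      refine lt_of_le_of_lt (mul_le_mul_of_nonneg_right (hC D hD3) (norm_nonneg _)) ?_
      linarith
  choose B hB1 hB2 hB3 using h1
  have htp : ∀ n, 0 < ‖B n - 1‖ := fun n => norm_pos_iff.2 (sub_ne_zero.2 (hB2 n))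
  have ht0 : Tendsto (fun n => ‖B n - 1‖) atTop (𝓝 0) :=
    squeeze_zero (fun n => norm_nonneg _) (fun n => (hB3 n).le) tendsto_one_div_add_atTop_nhds_zero_nat
  have hsph : ∀ n, (‖B n - 1‖)⁻¹ • (B n - 1) ∈ Metric.sphere (0 : V →L[ℝ] V) 1 := by
    intro n
    rw [mem_sphere_zero_iff_norm, norm_smul, norm_inv, norm_norm, inv_mul_cancel₀ (htp n).ne']
  obtain ⟨X, hX, φ, hφ, hlim⟩ := (isCompact_sphere (0 : V →L[ℝ] V) 1).tendsto_subseq hsph
  have hX0 : X ≠ 0 := by
    rintro rfl
    rw [mem_sphere_zero_iff_norm, norm_zero] at hX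
    exact zero_ne_one hX
  have hpos : ∀ s : ℝ, 0 ≤ s → (NormedSpace.exp (s • X) : V →L[ℝ] V) '' K = K := by
    intro s hs
    have h2 := exp_lim (B := fun n => B (φ n)) (t := fun n => ‖B (φ n) - 1‖)
      (fun n k => hC _ (pow_mem (hB1 (φ n)) k)) (fun n => htp (φ n))
      (ht0.comp hφ.tendsto_atTop) hlim hs
    exact closed_mem hK (fun n => pow_mem (hB1 (φ n)) _) h2
  refine ⟨X, hX0, fun t v hv => ?_⟩
  rcases le_or_gt 0 t with ht | ht
  · rw [← hpos t ht]
    exact mem_image_of_mem _ hv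
  · have h2 := hpos (-t) (by linarith)
    rw [← h2] at hv
    obtain ⟨u, hu, rfl⟩ := hv
    have h3 : NormedSpace.exp (t • X) * NormedSpace.exp ((-t) • X) = 1 := by
      rw [← NormedSpace.exp_add_of_commute
        (((Commute.refl X).smul_left t).smul_right (-t)), ← add_smul, add_neg_cancel, zero_smul,
        NormedSpace.exp_zero]
    have h4 : NormedSpace.exp (t • X) (NormedSpace.exp ((-t) • X) u) = u := by
      have := congrArg (fun A : V →L[ℝ] V => A u) h3
      simpa using this
    rw [h4]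
    exact hu

end group

/-! ### the centroid -/

section centroid

variable {V : Type} [NormedAddCommGroup V] [NormedSpace ℝ V] [FiniteDimensional ℝ V]

theorem exists_fixed {K : Set V} (hc : Convex ℝ K) (hK : IsCompact K)
    (hi : (interior K).Nonempty) :
    ∃ c ∈ interior K, ∀ g : V →ᵃ[ℝ] V, g '' K = K → g c = c := by
  haveI : ProperSpace V := FiniteDimensional.proper_real V
  letI : MeasurableSpace V := borel V
  haveI : BorelSpace V := ⟨rfl⟩
  let μ : Measure V := Measure.addHaar
  have hpos : 0 < μ K := (isOpen_interior.measure_pos μ hi).trans_le (measure_mono interior_subset)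
  have hfin : μ K < ⊤ := hK.measure_lt_top
  have hm : MeasurableSet K := hK.isClosed.measurableSet
  have hint : IntegrableOn (fun x : V => x) K μ := continuous_id.continuousOn.integrableOn_compact hK
  haveI : IsFiniteMeasure (μ.restrict K) := ⟨by rw [Measure.restrict_apply_univ]; exact hfin⟩
  refine ⟨⨍ x in K, x ∂μ, ?_, ?_⟩
  · obtain ⟨x0, hx0⟩ := hi
    obtain ⟨ρ, hρ, hb⟩ := Metric.nhds_basis_closedBall.mem_iff.1
      (isOpen_interior.mem_nhds hx0)
    have hbK : Metric.closedBall x0 ρ ⊆ K := hb.trans interior_subset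
    have hbm : μ (Metric.closedBall x0 ρ) ≠ 0 := (Metric.measure_closedBall_pos μ x0 hρ).ne'
    have e1 : (μ.restrict K) (Metric.closedBall x0 ρ) = μ (Metric.closedBall x0 ρ) := by
      rw [Measure.restrict_apply Metric.isClosed_closedBall.measurableSet,
        inter_eq_self_of_subset_left hbK]
    have e2 : (μ.restrict K).restrict (Metric.closedBall x0 ρ) =
        μ.restrict (Metric.closedBall x0 ρ) := by
      rw [Measure.restrict_restrict Metric.isClosed_closedBall.measurableSet,
        inter_eq_self_of_subset_left hbK]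
    refine Convex.average_mem_interior_of_set (t := Metric.closedBall x0 ρ) hc ?_ ?_ hint ?_
    · rw [e1]; exact hbm
    · exact ae_restrict_mem hm
    · rw [e2]
      refine hb ?_
      refine (convex_closedBall x0 ρ).set_average_mem Metric.isClosed_closedBall hbm
        measure_closedBall_lt_top.ne ?_ (hint.mono_set hbK)
      exact ae_restrict_mem Metric.isClosed_closedBall.measurableSet
  · intro g hg
    set L : V →L[ℝ] V := LinearMap.toContinuousLinearMap g.linear with hL
    have hgL : ∀ x, g x = L x + g 0 := by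
      intro x
      have := g.map_vadd 0 x
      change g x = g.linear x + g 0
      simpa using this
    have hder : ∀ x ∈ K, HasFDerivWithinAt g L K x := by
      intro x _
      have h1 : HasFDerivAt (fun x => L x + g 0) L x := L.hasFDerivAt.add_const _
      have h2 : (g : V → V) = fun x => L x + g 0 := funext hgL
      rw [h2]
      exact h1.hasFDerivWithinAt
    have hdet : |L.det| = 1 ∧ Function.Injective g := by
      have hsur : Function.Surjective (L : V →ₗ[ℝ] V) := by
        rw [← LinearMap.range_eq_top]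
        obtain ⟨x0, hx0⟩ := hi
        refine Submodule.eq_top_of_nonempty_interior' _ ⟨x0 - g 0, ?_⟩
        have h3 : (fun y => y - g 0) '' interior K ⊆
            (LinearMap.range (L : V →ₗ[ℝ] V) : Set V) := by
          rintro _ ⟨y, hy, rfl⟩
          have hy' := interior_subset hy
          rw [← hg] at hy'
          obtain ⟨z, -, rfl⟩ := hy'
          refine ⟨z, ?_⟩
          simp only
          rw [hgL z, add_sub_cancel_right]
          rfl
        have h4 : IsOpen ((fun y => y - g 0) '' interior K) :=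
          (Homeomorph.subRight (g 0)).isOpenMap _ isOpen_interior
        exact interior_maximal h3 h4 ⟨x0, hx0, rfl⟩
      have hinj : Function.Injective (L : V →ₗ[ℝ] V) := LinearMap.injective_iff_surjective.2 hsur
      have hginj : Function.Injective g := by
        intro x y hxy
        rw [hgL x, hgL y] at hxy
        exact hinj (add_right_cancel hxy)
      refine ⟨?_, hginj⟩
      have h5 := lintegral_abs_det_fderiv_eq_addHaar_image μ hm hder hginj.injOn
      rw [hg, lintegral_const, Measure.restrict_apply_univ] at h5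
      have h6 : ENNReal.ofReal |L.det| = 1 := by
        have h7 : ENNReal.ofReal |L.det| * μ K = 1 * μ K := by rw [one_mul]; exact h5
        exact (ENNReal.mul_left_inj hpos.ne' hfin.ne).1 h7
      have h8 := congrArg ENNReal.toReal h6
      rwa [ENNReal.toReal_ofReal (abs_nonneg _), ENNReal.toReal_one] at h8
    have h9 := integral_image_eq_integral_abs_det_fderiv_smul μ hm hder hdet.2.injOn
      (fun x => x)
    rw [hg, hdet.1] at h9
    simp only [one_smul] at h9
    have h10 : ∫ x in K, g x ∂μ = L (∫ x in K, x ∂μ) + (μ.real K) • g 0 := by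
      have h2 : (g : V → V) = fun x => L x + g 0 := funext hgL
      rw [h2]
      rw [integral_add (L.integrable_comp hint) (integrable_const _), L.integral_comp_comm hint]
      simp
    rw [h10] at h9
    rw [hgL, setAverage_eq, map_smul]
    have hr : μ.real K ≠ 0 := by
      rw [measureReal_def]
      exact (ENNReal.toReal_pos hpos.ne' hfin.ne).ne'
    have h11 : g 0 = (μ.real K)⁻¹ • ((μ.real K) • g 0) := by
      rw [smul_smul, inv_mul_cancel₀ hr, one_smul]
    rw [h11, ← smul_add, ← h9]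

end centroid

/-- **FLOW** -/
theorem flow : Pool.Agent.H768.C4.S_flow := by
  intro V _ _ _ K hc hK hi hinf
  obtain ⟨c, hcK, hfix⟩ := exists_fixed hc hK hi
  set K' : Set V := {v | c + v ∈ K} with hK'
  have hhom : K' = (Homeomorph.addLeft c) ⁻¹' K := rfl
  have hK'c : IsCompact K' := by
    rw [hhom]
    exact (Homeomorph.addLeft c).isCompact_preimage.2 hK
  have h0 : (0:V) ∈ interior K' := by
    rw [hhom, ← (Homeomorph.addLeft c).preimage_interior]
    simpa using hcK
  have hG : {A : V →L[ℝ] V | A '' K' = K'}.Infinite := by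
    refine infinite_of_injOn_mapsTo (f := fun g : V →ᵃ[ℝ] V =>
      LinearMap.toContinuousLinearMap g.linear) ?_ ?_ hinf
    · intro g hg g' hg' he
      refine AffineMap.ext_linear ?_ (p := c) ?_
      · exact LinearMap.toContinuousLinearMap.injective he
      · rw [hfix g hg, hfix g' hg']
    · intro g hg
      have hgc := hfix g hg
      have hlin : ∀ v, c + g.linear v = g (c + v) := by
        intro v
        have := g.map_vadd c v
        rw [hgc] at this
        simp only [vadd_eq_add] at this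
        rw [add_comm c v, this, add_comm]
      change (fun v => g.linear v) '' K' = K'
      have hg' : g '' K = K := hg
      apply Subset.antisymm
      · rintro _ ⟨v, hv, rfl⟩
        change c + g.linear v ∈ K
        rw [hlin, ← hg']
        exact mem_image_of_mem _ hv
      · intro w hw
        have hw' : c + w ∈ K := hw
        rw [← hg'] at hw'
        obtain ⟨x, hx, hxw⟩ := hw'
        refine ⟨x - c, ?_, ?_⟩
        · change c + (x - c) ∈ K
          rw [add_sub_cancel]
          exact hx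
        · have := hlin (x - c)
          rw [add_sub_cancel, hxw] at this
          exact add_left_cancel this
  obtain ⟨X, hX0, hX⟩ := flow_of_infinite hK'c h0 hG
  exact ⟨c, hcK, X, hX0, fun t v hv => hX t v hv⟩

end Pool.Agent.H44.C4
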